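import Pool.Agent.Lib.MP_b54217_ag.I.Card

/-! # PROJECT G, interface: numbers of exponents, second part -/

set_option autoImplicit false

namespace Pool.Agent.SV.G

open MvPolynomial

/-- `Dj (DD M d) ⟨i, j⟩ = DD M (d - e_i)` if `d i ≥ 1`. -/
theorem Dj_DD {k : ℕ} (M d : Fin k → ℕ) (i : Fin k) (j : Fin (M i)) (hd : 1 ≤ d i) :
    Dj (DD M d) ⟨i, j⟩ = DD M (Function.update d i (d i - 1)) := by
  classical
  ext a
  rw [Dj, Finset.mem_filter, mem_DD, mem_DD, mem_DD]
  have key : ∀ i', ∑ j', (a + Finsupp.single (⟨i, j⟩ : Sg M) 1 : Sg M →₀ ℕ) ⟨i', j'⟩ =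
      ∑ j', a ⟨i', j'⟩ + if i' = i then 1 else 0 := by
    intro i'
    simp only [Finsupp.add_apply, Finset.sum_add_distrib]
    congr 1
    by_cases h : i' = i
    · subst h
      rw [if_pos rfl, Finset.sum_eq_single j]
      · rw [Finsupp.single_eq_same]
      · intro b _ hb
        rw [Finsupp.single_eq_of_ne]
        intro he
        apply hb
        simpa using he
      · intro hj
        exact absurd (Finset.mem_univ j) hj
    · rw [if_neg h]
      refine Finset.sum_eq_zero fun b _ => ?_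
      rw [Finsupp.single_eq_of_ne]
      intro he
      exact h (congrArg Sigma.fst he)
  constructor
  · rintro ⟨h1, h2⟩ i'
    have h3 := h2 i'
    rw [key i'] at h3
    by_cases h : i' = i
    · subst h
      rw [Function.update_self]
      rw [if_pos rfl] at h3
      omega
    · rw [Function.update_of_ne h]
      rw [if_neg h] at h3
      exact h3
  · intro h
    refine ⟨fun i' => ?_, fun i' => ?_⟩
    · have h3 := h i'
      by_cases h4 : i' = i
      · subst h4
        rw [Function.update_self] at h3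
        omega
      · rwa [Function.update_of_ne h4] at h3
    · rw [key i']
      have h3 := h i'
      by_cases h4 : i' = i
      · subst h4
        rw [Function.update_self] at h3
        rw [if_pos rfl]
        omega
      · rw [Function.update_of_ne h4] at h3
        rw [if_neg h4]
        exact h3

/-- `Dj (DD M d) ⟨i, j⟩ = DD M (d - e_i)` if `d i ≥ 1`, `∅` if `d i = 0`; `card_DD`. -/
theorem card_Dj {k : ℕ} (M d : Fin k → ℕ) (x : Sg M) :
    (Dj (DD M d) x).card * (M x.1 + d x.1) = (DD M d).card * d x.1 := by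
  classical
  obtain ⟨i, j⟩ := x
  show (Dj (DD M d) ⟨i, j⟩).card * (M i + d i) = (DD M d).card * d i
  by_cases hd : d i = 0
  · have h0 : Dj (DD M d) ⟨i, j⟩ = ∅ := by
      rw [Finset.eq_empty_iff_forall_notMem]
      intro a ha
      rw [Dj, Finset.mem_filter, mem_DD, mem_DD] at ha
      have h1 := ha.2 i
      have h2 : (a + Finsupp.single (⟨i, j⟩ : Sg M) 1 : Sg M →₀ ℕ) ⟨i, j⟩ ≤
          ∑ j', (a + Finsupp.single (⟨i, j⟩ : Sg M) 1 : Sg M →₀ ℕ) ⟨i, j'⟩ :=
        Finset.single_le_sum (f := fun j' => (a + Finsupp.single (⟨i, j⟩ : Sg M) 1 : Sg M →₀ ℕ) ⟨i, j'⟩)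
          (fun _ _ => Nat.zero_le _) (Finset.mem_univ j)
      rw [Finsupp.add_apply, Finsupp.single_eq_same] at h2
      omega
    rw [h0, hd, Finset.card_empty, mul_zero, zero_mul]
  · have hd1 : 1 ≤ d i := Nat.one_le_iff_ne_zero.2 hd
    rw [Dj_DD M d i j hd1, card_DD, card_DD]
    rw [← Finset.mul_prod_erase Finset.univ _ (Finset.mem_univ i),
      ← Finset.mul_prod_erase Finset.univ (fun i => (M i + d i).choose (M i)) (Finset.mem_univ i)]
    have h1 : ∏ x ∈ Finset.univ.erase i,
        (M x + Function.update d i (d i - 1) x).choose (M x) =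
        ∏ x ∈ Finset.univ.erase i, (M x + d x).choose (M x) := by
      refine Finset.prod_congr rfl fun x hx => ?_
      rw [Function.update_of_ne (Finset.ne_of_mem_erase hx)]
    rw [h1, Function.update_self]
    have h2 := Nat.choose_mul_succ_eq (M i + (d i - 1)) (M i)
    have h3 : M i + (d i - 1) + 1 = M i + d i := by omega
    rw [h3] at h2
    have h4 : M i + d i - M i = d i := by omega
    rw [h4] at h2
    rw [mul_right_comm, h2, mul_right_comm]

theorem low_DD {k : ℕ} {M d : Fin k → ℕ} (hd : ∀ i, 2 ≤ d i) (a : Sg M →₀ ℕ)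
    (ha : ∑ x, a x ≤ 2) : a ∈ DD M d := by
  rw [mem_DD]
  intro i
  rw [Fintype.sum_sigma] at ha
  have h1 : ∑ j, a ⟨i, j⟩ ≤ ∑ i', ∑ j, a ⟨i', j⟩ :=
    Finset.single_le_sum (f := fun i' => ∑ j, a ⟨i', j⟩) (fun _ _ => Nat.zero_le _)
      (Finset.mem_univ i)
  exact (h1.trans ha).trans (hd i)

theorem svDim_G {k : ℕ} {n : ℕ} (M : Fin k → ℕ) {d : Fin k → ℕ} (hn : 1 ≤ n)
    (hd : ∀ i, 1 ≤ d i) : svDim (nn n M) (dd d) + 1 = n + ∑ i, M i := by
  unfold svDim
  rw [Fin.sum_univ_succ]
  have h1 : ∀ i : Fin k, (if (dd d) i.succ = 0 then 0 else (nn n M) i.succ - 1) = M i := by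
    intro i
    have h2 : (dd d) i.succ = d i := Fin.cons_succ _ _ _
    have h3 : (nn n M) i.succ = M i + 1 := Fin.cons_succ _ _ _
    rw [h2, h3, if_neg (by have := hd i; omega)]
    omega
  have h4 : (if (dd d) 0 = 0 then 0 else (nn n M) 0 - 1) = n - 1 := by
    have h2 : (dd d) 0 = 1 := Fin.cons_zero _ _
    have h3 : (nn n M) 0 = n := Fin.cons_zero _ _
    rw [h2, h3, if_neg one_ne_zero]
  have h5 : ∑ i : Fin k, (if (dd d) i.succ = 0 then 0 else (nn n M) i.succ - 1) = ∑ i, M i :=
    Finset.sum_congr rfl fun i _ => h1 i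
  rw [h4, h5]
  omega

end Pool.Agent.SV.G
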