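import Pool.Agent.Lib.MP_b54217_ag.G.HDim
import Pool.Agent.Lib.MP_b54217_ag.E.Lo

/-! # PROJECT G, interface: from the differential step (folder `E`) to `TT`, all `r` -/

set_option autoImplicit false

namespace Pool.Agent.SV.G

open MvPolynomial Module

variable {σ : Type}

/-- From the spaces of folder `E` to `TT`. -/
theorem tt_of_full {n r : ℕ} (D : Finset (σ →₀ ℕ)) (u : Fin r → Fin n → ℂ) (y : Fin r → σ → ℂ)
    {c : ℕ} (h : finrank ℂ (E.Z (E.HN n D) (E.full u y)) ≤ c) :
    ∃ (u' : ℕ → Fin n → ℂ) (p : ℕ → σ → ℂ), finrank ℂ (TT n D r u' p) ≤ c := by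
  classical
  let u' : ℕ → Fin n → ℂ := fun k => if hk : k < r then u ⟨k, hk⟩ else 0
  let p : ℕ → σ → ℂ := fun k => if hk : k < r then y ⟨k, hk⟩ else 0
  have hu : ∀ k : Fin r, u' k = u k := fun k => by
    simp only [u']
    rw [dif_pos k.2]
  have hp : ∀ k : Fin r, p k = y k := fun k => by
    simp only [p]
    rw [dif_pos k.2]
  refine ⟨u', p, le_trans ?_ h⟩
  have key : ∀ F : TT n D r u' p, (fun l => ((F : Fin n → H D) l : MvPolynomial σ ℂ)) ∈
      E.Z (E.HN n D) (E.full u y) := by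
    intro F
    rw [E.mem_Z_full, E.mem_HN]
    refine ⟨fun l => ((F : Fin n → H D) l).2, fun k l => ?_, fun k i => ?_⟩
    · rw [E.ev_apply, ← hp]
      exact (F.2.1 l).1 k (Finset.mem_range.2 k.2)
    · have h1 := F.2.2 k (Finset.mem_range.2 k.2) i
      rw [hu, hp] at h1
      simp only [E.dv_apply]
      exact h1
  let f : TT n D r u' p →ₗ[ℂ] E.Z (E.HN n D) (E.full u y) :=
    { toFun := fun F => ⟨_, key F⟩
      map_add' := fun F G => rfl
      map_smul' := fun c F => rfl }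
  refine LinearMap.finrank_le_finrank_of_injective (f := f) ?_
  intro F G hFG
  apply Subtype.ext
  funext l
  apply Subtype.ext
  exact congrFun (congrArg Subtype.val hFG) l

theorem tt_mono {n : ℕ} (D : Finset (σ →₀ ℕ)) (u : ℕ → Fin n → ℂ) (p : ℕ → σ → ℂ) {r r' : ℕ}
    (h : r ≤ r') : finrank ℂ (TT n D r' u p) ≤ finrank ℂ (TT n D r u p) := by
  apply Submodule.finrank_mono
  intro F hF
  refine ⟨fun l => ⟨fun k hk => ?_, fun k hk => absurd hk (Finset.notMem_empty k)⟩,
    fun k hk i => ?_⟩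
  · exact (hF.1 l).1 k (Finset.mem_range.2 ((Finset.mem_range.1 hk).trans_le h))
  · exact hF.2 k (Finset.mem_range.2 ((Finset.mem_range.1 hk).trans_le h)) i

/-- The conditions at the point number `r`. -/
noncomputable def ttL {n : ℕ} (D : Finset (σ →₀ ℕ)) (u : ℕ → Fin n → ℂ) (p : ℕ → σ → ℂ)
    (r : ℕ) : (Fin n → H D) →ₗ[ℂ] (Fin n → ℂ) × (σ → ℂ) where
  toFun F := (fun l => eval (p r) (F l : MvPolynomial σ ℂ),
    fun i => ∑ l, u r l * eval (p r) (pderiv i (F l : MvPolynomial σ ℂ)))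
  map_add' F G := by
    refine Prod.ext (funext fun l => ?_) (funext fun i => ?_)
    · change eval (p r) ((F l + G l : H D) : MvPolynomial σ ℂ) = _
      rw [Submodule.coe_add, map_add]
      rfl
    · change ∑ l, u r l * eval (p r) (pderiv i ((F l + G l : H D) : MvPolynomial σ ℂ)) =
        (∑ l, u r l * eval (p r) (pderiv i (F l : MvPolynomial σ ℂ))) +
        ∑ l, u r l * eval (p r) (pderiv i (G l : MvPolynomial σ ℂ))
      rw [← Finset.sum_add_distrib]
      refine Finset.sum_congr rfl fun l _ => ?_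
      rw [Submodule.coe_add, map_add, map_add, mul_add]
  map_smul' c F := by
    refine Prod.ext (funext fun l => ?_) (funext fun i => ?_)
    · change eval (p r) ((c • F l : H D) : MvPolynomial σ ℂ) = _
      rw [Submodule.coe_smul, smul_eval]
      rfl
    · change ∑ l, u r l * eval (p r) (pderiv i ((c • F l : H D) : MvPolynomial σ ℂ)) =
        c * ∑ l, u r l * eval (p r) (pderiv i (F l : MvPolynomial σ ℂ))
      rw [Finset.mul_sum]
      refine Finset.sum_congr rfl fun l _ => ?_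
      rw [Submodule.coe_smul, Derivation.map_smul, smul_eval]
      ring

theorem finrank_le_inf_ker {E F : Type} [AddCommGroup E] [Module ℂ E] [FiniteDimensional ℂ E]
    [AddCommGroup F] [Module ℂ F] [FiniteDimensional ℂ F] (W : Submodule ℂ E) (L : E →ₗ[ℂ] F) :
    finrank ℂ W ≤ finrank ℂ (W ⊓ LinearMap.ker L : Submodule ℂ E) + finrank ℂ F := by
  have h1 := LinearMap.finrank_range_add_finrank_ker (L.domRestrict W)
  have h2 : finrank ℂ (LinearMap.range (L.domRestrict W)) ≤ finrank ℂ F := Submodule.finrank_le _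
  have key : ∀ x : LinearMap.ker (L.domRestrict W), ((x : W) : E) ∈ W ⊓ LinearMap.ker L :=
    fun x => ⟨(x : W).2, x.2⟩
  let f : LinearMap.ker (L.domRestrict W) →ₗ[ℂ] (W ⊓ LinearMap.ker L : Submodule ℂ E) :=
    { toFun := fun x => ⟨_, key x⟩
      map_add' := fun x y => rfl
      map_smul' := fun c x => rfl }
  have h3 : finrank ℂ (LinearMap.ker (L.domRestrict W)) ≤
      finrank ℂ (W ⊓ LinearMap.ker L : Submodule ℂ E) := by
    refine LinearMap.finrank_le_finrank_of_injective (f := f) ?_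
    intro x y hxy
    have h4 : ((f x : (W ⊓ LinearMap.ker L : Submodule ℂ E)) : E) = f y :=
      congrArg Subtype.val hxy
    exact Subtype.ext (Subtype.ext h4)
  omega

/-- One more point lowers the dimension by at most `n + m`. -/
theorem tt_succ [Fintype σ] {n : ℕ} (D : Finset (σ →₀ ℕ)) (u : ℕ → Fin n → ℂ)
    (p : ℕ → σ → ℂ) (r : ℕ) :
    finrank ℂ (TT n D r u p) ≤ finrank ℂ (TT n D (r + 1) u p) + (n + Fintype.card σ) := by
  have h1 := finrank_le_inf_ker (TT n D r u p) (ttL D u p r)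
  have h2 : finrank ℂ ((Fin n → ℂ) × (σ → ℂ)) = n + Fintype.card σ := by
    rw [finrank_prod, finrank_fintype_fun_eq_card, finrank_fintype_fun_eq_card, Fintype.card_fin]
  have h3 : TT n D r u p ⊓ LinearMap.ker (ttL D u p r) ≤ TT n D (r + 1) u p := by
    rintro F ⟨hF, h3⟩
    have h4 := congrArg Prod.fst (LinearMap.mem_ker.1 h3)
    have h5 := congrArg Prod.snd (LinearMap.mem_ker.1 h3)
    refine ⟨fun l => ⟨fun k hk => ?_, fun k hk => absurd hk (Finset.notMem_empty k)⟩,
      fun k hk i => ?_⟩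
    · rcases Nat.lt_succ_iff_lt_or_eq.1 (Finset.mem_range.1 hk) with hk | hk
      · exact (hF.1 l).1 k (Finset.mem_range.2 hk)
      · rw [hk]
        exact congrFun h4 l
    · rcases Nat.lt_succ_iff_lt_or_eq.1 (Finset.mem_range.1 hk) with hk | hk
      · exact hF.2 k (Finset.mem_range.2 hk) i
      · rw [hk]
        exact congrFun h5 i
  have h6 := Submodule.finrank_mono h3
  omega

theorem tt_add [Fintype σ] {n : ℕ} (D : Finset (σ →₀ ℕ)) (u : ℕ → Fin n → ℂ) (p : ℕ → σ → ℂ) (r j : ℕ) :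
    finrank ℂ (TT n D r u p) ≤ finrank ℂ (TT n D (r + j) u p) + j * (n + Fintype.card σ) := by
  induction j with
  | zero => simp
  | succ j ih =>
    have h1 := tt_succ D u p (r + j)
    have h2 : (j + 1) * (n + Fintype.card σ) = j * (n + Fintype.card σ) +
      (n + Fintype.card σ) := by ring
    rw [h2, ← add_assoc r j 1]
    omega

/-- All `r` from `r0` (largest with `r0 (n + m) ≤ n N`) and `r0 + 1`. -/
theorem tt_all [Fintype σ] {n : ℕ} (D : Finset (σ →₀ ℕ)) (r0 : ℕ)
    (h0 : r0 * (n + Fintype.card σ) ≤ n * D.card)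
    (h1 : ∃ (u : ℕ → Fin n → ℂ) (p : ℕ → σ → ℂ),
      finrank ℂ (TT n D r0 u p) ≤ n * D.card - r0 * (n + Fintype.card σ))
    (h2 : ∃ (u : ℕ → Fin n → ℂ) (p : ℕ → σ → ℂ), finrank ℂ (TT n D (r0 + 1) u p) ≤ 0) (r : ℕ) :
    ∃ (u : ℕ → Fin n → ℂ) (p : ℕ → σ → ℂ),
      finrank ℂ (TT n D r u p) ≤ n * D.card - r * (n + Fintype.card σ) := by
  rcases le_or_gt r r0 with h | h
  · obtain ⟨u, p, h3⟩ := h1
    refine ⟨u, p, ?_⟩
    obtain ⟨j, rfl⟩ := Nat.exists_eq_add_of_le h
    have h4 := tt_add D u p r j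
    have h5 : (r + j) * (n + Fintype.card σ) = r * (n + Fintype.card σ) +
      j * (n + Fintype.card σ) := by ring
    rw [h5] at h3 h0
    omega
  · obtain ⟨u, p, h3⟩ := h2
    refine ⟨u, p, ?_⟩
    have h4 := tt_mono D u p (show r0 + 1 ≤ r from h)
    omega

end Pool.Agent.SV.G
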