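import Pool.Agent.Lib.MP_b54217_ag.I.Dd
import Pool.Agent.Lib.MP_b54217_ag.G.HDim
import Pool.Agent.Lib.MP_b54217_ag.AlgC

/-! # PROJECT G, interface: the lower bound by the rank of the differential

Pattern: `S/LowP.lean`, `krull_ge` (in `AlgC`). -/

set_option autoImplicit false

namespace Pool.Agent.SV.G

open MvPolynomial Module

/-- The special point of the parameter space: `u_s`, `z_{s,i} = (1, p_s(i, ·))`. -/
noncomputable def tG {k : ℕ} (n : ℕ) (M : Fin k → ℕ) (r : ℕ) (u : ℕ → Fin n → ℂ)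
    (p : ℕ → Sg M → ℂ) : ParG n M r → ℂ := fun x =>
  match x.2 with
  | Sum.inl l => u x.1 l
  | Sum.inr ⟨i, e⟩ => (Fin.cons 1 fun j => p x.1 ⟨i, j⟩ : Fin (M i + 1) → ℂ) e

/-- The variables of one summand. -/
abbrev LowV {k : ℕ} (n : ℕ) (M : Fin k → ℕ) : Type := Fin n ⊕ ((i : Fin k) × Fin (M i + 1))

/-- The affine coordinates. -/
def lowI {k : ℕ} (n : ℕ) (M : Fin k → ℕ) (y : Sg M) : LowV n M := Sum.inr ⟨y.1, Fin.succ y.2⟩

/-- The homogenising coordinates. -/
def lowO {k : ℕ} (n : ℕ) (M : Fin k → ℕ) (i : Fin k) : LowV n M := Sum.inr ⟨i, 0⟩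

theorem lowI_inj {k : ℕ} (n : ℕ) (M : Fin k → ℕ) : Function.Injective (lowI n M) := by
  rintro ⟨i, j⟩ ⟨i', j'⟩ h
  simp only [lowI, Sum.inr.injEq, Sigma.mk.injEq] at h
  obtain ⟨rfl, h2⟩ := h
  rw [heq_iff_eq, Fin.succ_inj] at h2
  rw [h2]

/-- The part with the homogenising coordinates. -/
noncomputable def lowA {k : ℕ} (n : ℕ) (M d : Fin k → ℕ) (a : Sg M →₀ ℕ) :
    MvPolynomial (LowV n M) ℂ :=
  rename (lowO n M) (∏ i, X i ^ (d i - ∑ j, a ⟨i, j⟩))

/-- One summand of `gG`. -/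
noncomputable def lowQ {k : ℕ} (n : ℕ) (M d : Fin k → ℕ) (x : Fin n × {a // a ∈ DD M d}) :
    MvPolynomial (LowV n M) ℂ :=
  X (Sum.inl x.1) * (lowA n M d x.2.1 * rename (lowI n M) (monomial x.2.1 1))

theorem lowB {k : ℕ} (n : ℕ) (M d : Fin k → ℕ) (a : Sg M →₀ ℕ) :
    lowA n M d a * rename (lowI n M) (monomial a 1) =
      ∏ i, ∏ e, X (Sum.inr ⟨i, e⟩ : LowV n M) ^ hz d a i e := by
  have h1 : (monomial a (1 : ℂ)) = ∏ y : Sg M, X y ^ a y := by
    rw [monomial_eq, C_1, one_mul, Finsupp.prod_fintype]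
    intro i
    rw [pow_zero]
  rw [h1, lowA, map_prod, map_prod, Fintype.prod_sigma, ← Finset.prod_mul_distrib]
  refine Finset.prod_congr rfl fun i _ => ?_
  rw [Fin.prod_univ_succ, map_pow, rename_X]
  refine congrArg₂ (· * ·) rfl ?_
  refine Finset.prod_congr rfl fun j _ => ?_
  rw [map_pow, rename_X]
  rfl

theorem low_gG {k : ℕ} (n : ℕ) (M d : Fin k → ℕ) (r : ℕ) (x : Fin n × {a // a ∈ DD M d}) :
    gG n M d r x = ∑ s : Fin r, rename (Prod.mk s) (lowQ n M d x) := by
  unfold gG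
  refine Finset.sum_congr rfl fun s _ => ?_
  rw [lowQ, lowB, map_mul, rename_X, map_prod]
  refine congrArg₂ (· * ·) rfl (Finset.prod_congr rfl fun i _ => ?_)
  rw [map_prod]
  refine Finset.prod_congr rfl fun e _ => ?_
  rw [map_pow, rename_X]

theorem low_pd0 {σ τ : Type} (f : σ → τ) (q : MvPolynomial σ ℂ) (z : τ) (hz : ∀ y, f y ≠ z) :
    pderiv z (rename f q) = 0 := by
  classical
  refine pderiv_eq_zero_of_notMem_vars fun h => ?_
  obtain ⟨y, -, hy⟩ := Finset.mem_image.1 (vars_rename f q h)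
  exact hz y hy

theorem low_pd {k : ℕ} (n : ℕ) (M d : Fin k → ℕ) (r : ℕ) (x : Fin n × {a // a ∈ DD M d})
    (s : Fin r) (z : LowV n M) :
    pderiv ((s, z) : ParG n M r) (gG n M d r x) = rename (Prod.mk s) (pderiv z (lowQ n M d x)) := by
  rw [low_gG, map_sum, Finset.sum_eq_single s]
  · exact pderiv_rename (f := Prod.mk s) (Prod.mk_right_injective s) z _
  · intro s' _ hs
    refine low_pd0 _ _ _ fun y h => hs ?_
    exact (Prod.ext_iff.1 h).1
  · intro h
    exact absurd (Finset.mem_univ _) h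

theorem low_ev {k : ℕ} (n : ℕ) (M : Fin k → ℕ) (r : ℕ) (u : ℕ → Fin n → ℂ)
    (p : ℕ → Sg M → ℂ) (s : Fin r) (f : MvPolynomial (Sg M) ℂ) :
    eval (fun z => tG n M r u p (s, z)) (rename (lowI n M) f) = eval (p s) f := by
  rw [eval_rename]
  rfl

theorem low_evA {k : ℕ} (n : ℕ) (M d : Fin k → ℕ) (r : ℕ) (u : ℕ → Fin n → ℂ)
    (p : ℕ → Sg M → ℂ) (s : Fin r) (a : Sg M →₀ ℕ) :
    eval (fun z => tG n M r u p (s, z)) (lowA n M d a) = 1 := by
  rw [lowA, eval_rename, map_prod]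
  refine Finset.prod_eq_one fun i _ => ?_
  rw [map_pow, eval_X]
  exact one_pow _

/-- The derivative with respect to a coordinate of `u`. -/
theorem low_u {k : ℕ} (n : ℕ) (M d : Fin k → ℕ) (r : ℕ) (u : ℕ → Fin n → ℂ)
    (p : ℕ → Sg M → ℂ) (s : Fin r) (l : Fin n) (x : Fin n × {a // a ∈ DD M d}) :
    eval (tG n M r u p) (pderiv ((s, Sum.inl l) : ParG n M r) (gG n M d r x)) =
      if x.1 = l then eval (p s) (monomial x.2.1 1) else 0 := by
  have h1 : pderiv (Sum.inl l : LowV n M) (lowA n M d x.2.1) = 0 :=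
    low_pd0 _ _ _ fun y h => by simp [lowO] at h
  have h2 : pderiv (Sum.inl l : LowV n M) (rename (lowI n M) (monomial x.2.1 (1 : ℂ))) = 0 :=
    low_pd0 _ _ _ fun y h => by simp [lowI] at h
  rw [low_pd, eval_rename, lowQ, Derivation.leibniz, Derivation.leibniz, h1, h2, smul_zero,
    smul_zero, add_zero, smul_zero, zero_add]
  change eval (fun z => tG n M r u p (s, z)) _ = _
  by_cases h : x.1 = l
  · rw [if_pos h, h, pderiv_X_self, smul_eq_mul, mul_one, map_mul, low_ev, low_evA, one_mul]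
  · rw [if_neg h, pderiv_X_of_ne (fun h' => h (Sum.inl_injective h')), smul_zero, map_zero]

/-- The derivative with respect to a coordinate of `p`. -/
theorem low_p {k : ℕ} (n : ℕ) (M d : Fin k → ℕ) (r : ℕ) (u : ℕ → Fin n → ℂ)
    (p : ℕ → Sg M → ℂ) (s : Fin r) (y : Sg M) (x : Fin n × {a // a ∈ DD M d}) :
    eval (tG n M r u p) (pderiv ((s, lowI n M y) : ParG n M r) (gG n M d r x)) =
      u s x.1 * eval (p s) (pderiv y (monomial x.2.1 1)) := by
  have h1 : pderiv (lowI n M y) (lowA n M d x.2.1) = 0 := by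
    refine low_pd0 _ _ _ fun i h => ?_
    simp only [lowO, lowI, Sum.inr.injEq, Sigma.mk.injEq] at h
    obtain ⟨rfl, h2⟩ := h
    rw [heq_iff_eq] at h2
    exact Fin.succ_ne_zero _ h2.symm
  have h2 : pderiv (lowI n M y) (rename (lowI n M) (monomial x.2.1 (1 : ℂ))) =
      rename (lowI n M) (pderiv y (monomial x.2.1 1)) := pderiv_rename (lowI_inj n M) y _
  have h3 : pderiv (lowI n M y) (X (Sum.inl x.1) : MvPolynomial (LowV n M) ℂ) = 0 :=
    pderiv_X_of_ne (by simp [lowI])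
  rw [low_pd, eval_rename, lowQ, Derivation.leibniz, Derivation.leibniz, h1, h2, h3, smul_zero,
    smul_zero, add_zero, add_zero, smul_eq_mul, smul_eq_mul]
  change eval (fun z => tG n M r u p (s, z)) _ = _
  rw [map_mul, map_mul, low_ev, low_evA, one_mul, eval_X]
  rfl

/-- The tangent space at the special point. -/
noncomputable def lowT {k : ℕ} (n : ℕ) (M d : Fin k → ℕ) (r : ℕ) (u : ℕ → Fin n → ℂ)
    (p : ℕ → Sg M → ℂ) : Submodule ℂ (Fin n × {a // a ∈ DD M d} → ℂ) :=
  Submodule.span ℂ (Set.range fun (s : ParG n M r) =>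
    (fun x => eval (tG n M r u p) (pderiv s (gG n M d r x)) : Fin n × {a // a ∈ DD M d} → ℂ))

/-- The tuple of polynomials of a functional. -/
noncomputable def lowF {k : ℕ} (n : ℕ) (M d : Fin k → ℕ) :
    Module.Dual ℂ (Fin n × {a // a ∈ DD M d} → ℂ) →ₗ[ℂ] (Fin n → H (DD M d)) where
  toFun φ l := ⟨∑ a : {a // a ∈ DD M d}, monomial a.1 (φ (Pi.single (l, a) 1)),
    Submodule.sum_mem _ fun a _ => (monomial_mem_restrictSupport ℂ).2 (Or.inl a.2)⟩
  map_add' φ ψ := by
    funext l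
    refine Subtype.ext ?_
    change ∑ a : {a // a ∈ DD M d}, monomial a.1 ((φ + ψ) (Pi.single (l, a) 1)) =
      ∑ a : {a // a ∈ DD M d}, monomial a.1 (φ (Pi.single (l, a) 1)) +
        ∑ a : {a // a ∈ DD M d}, monomial a.1 (ψ (Pi.single (l, a) 1))
    rw [← Finset.sum_add_distrib]
    refine Finset.sum_congr rfl fun a _ => ?_
    rw [LinearMap.add_apply, map_add]
  map_smul' c φ := by
    funext l
    refine Subtype.ext ?_
    change ∑ a : {a // a ∈ DD M d}, monomial a.1 ((c • φ) (Pi.single (l, a) 1)) =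
      c • ∑ a : {a // a ∈ DD M d}, monomial a.1 (φ (Pi.single (l, a) 1))
    rw [Finset.smul_sum]
    refine Finset.sum_congr rfl fun a _ => ?_
    rw [LinearMap.smul_apply, map_smul]

theorem lowF_coe {k : ℕ} (n : ℕ) (M d : Fin k → ℕ)
    (φ : Module.Dual ℂ (Fin n × {a // a ∈ DD M d} → ℂ)) (l : Fin n) :
    (lowF n M d φ l : MvPolynomial (Sg M) ℂ) =
      ∑ a : {a // a ∈ DD M d}, φ (Pi.single (l, a) 1) • monomial a.1 1 := by
  change ∑ a : {a // a ∈ DD M d}, monomial a.1 (φ (Pi.single (l, a) 1)) = _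
  refine Finset.sum_congr rfl fun a _ => ?_
  rw [smul_monomial, smul_eq_mul, mul_one]

theorem lowF_inj {k : ℕ} (n : ℕ) (M d : Fin k → ℕ) : Function.Injective (lowF n M d) := by
  classical
  rw [injective_iff_map_eq_zero]
  intro φ hφ
  have h1 : ∀ x : Fin n × {a // a ∈ DD M d}, φ (Pi.single x 1) = 0 := by
    rintro ⟨l, a⟩
    have h2 : (lowF n M d φ l : MvPolynomial (Sg M) ℂ) = 0 := by
      rw [hφ]
      rfl
    have h3 := congrArg (coeff a.1) h2
    change coeff a.1 (∑ b : {a // a ∈ DD M d}, monomial b.1 (φ (Pi.single (l, b) 1))) = _ at h3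
    rw [coeff_sum, Finset.sum_eq_single a, coeff_monomial, if_pos rfl, coeff_zero] at h3
    · exact h3
    · intro b _ hb
      rw [coeff_monomial, if_neg fun h => hb (Subtype.ext h)]
    · intro h
      exact absurd (Finset.mem_univ _) h
  refine LinearMap.pi_ext' fun x => LinearMap.ext_ring ?_
  rw [LinearMap.comp_apply, LinearMap.zero_comp, LinearMap.zero_apply]
  exact h1 x

theorem low_app {k : ℕ} (n : ℕ) (M d : Fin k → ℕ)
    (φ : Module.Dual ℂ (Fin n × {a // a ∈ DD M d} → ℂ)) (w : Fin n × {a // a ∈ DD M d} → ℂ) :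
    φ w = ∑ l, ∑ a, w (l, a) * φ (Pi.single (l, a) 1) := by
  classical
  have h1 : w = ∑ x, w x • (Pi.single x (1 : ℂ) : Fin n × {a // a ∈ DD M d} → ℂ) := by
    funext y
    rw [Finset.sum_apply, Finset.sum_eq_single y]
    · rw [Pi.smul_apply, Pi.single_eq_same, smul_eq_mul, mul_one]
    · intro b _ hb
      rw [Pi.smul_apply, Pi.single_eq_of_ne hb.symm, smul_zero]
    · intro h
      exact absurd (Finset.mem_univ _) h
  rw [h1, map_sum, Fintype.sum_prod_type]
  refine Finset.sum_congr rfl fun l _ => Finset.sum_congr rfl fun a _ => ?_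
  rw [map_smul, smul_eq_mul, ← h1]

theorem lowF_mem {k : ℕ} (n : ℕ) (M d : Fin k → ℕ) (r : ℕ) (u : ℕ → Fin n → ℂ)
    (p : ℕ → Sg M → ℂ) (φ : Module.Dual ℂ (Fin n × {a // a ∈ DD M d} → ℂ))
    (hφ : φ ∈ (lowT n M d r u p).dualAnnihilator) : lowF n M d φ ∈ TT n (DD M d) r u p := by
  classical
  rw [Submodule.mem_dualAnnihilator] at hφ
  refine ⟨fun l => ⟨fun s hs => ?_, fun s hs => absurd hs (Finset.notMem_empty s)⟩,
    fun s hs y => ?_⟩
  · rw [Finset.mem_range] at hs
    have h1 : φ (fun x => eval (tG n M r u p)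
        (pderiv ((⟨s, hs⟩, Sum.inl l) : ParG n M r) (gG n M d r x))) = 0 :=
      hφ _ (Submodule.subset_span ⟨(⟨s, hs⟩, Sum.inl l), rfl⟩)
    rw [low_app, Finset.sum_eq_single l] at h1
    · rw [lowF_coe, map_sum, ← h1]
      refine Finset.sum_congr rfl fun a _ => ?_
      rw [low_u, if_pos rfl, smul_eval, mul_comm]
    · intro l' _ hl'
      refine Finset.sum_eq_zero fun a _ => ?_
      rw [low_u, if_neg hl', zero_mul]
    · intro h
      exact absurd (Finset.mem_univ _) h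
  · rw [Finset.mem_range] at hs
    have h1 : φ (fun x => eval (tG n M r u p)
        (pderiv ((⟨s, hs⟩, lowI n M y) : ParG n M r) (gG n M d r x))) = 0 :=
      hφ _ (Submodule.subset_span ⟨(⟨s, hs⟩, lowI n M y), rfl⟩)
    rw [low_app] at h1
    rw [← h1]
    refine Finset.sum_congr rfl fun l _ => ?_
    rw [lowF_coe, map_sum, map_sum, Finset.mul_sum]
    refine Finset.sum_congr rfl fun a _ => ?_
    rw [low_p, Derivation.map_smul, smul_eval]
    ring

/-- A functional `φ` on `Fin n × DD → ℂ` that vanishes on the image `T` of the differential gives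
`F l = ∑ a, φ (e_(l,a)) x^a` in `TT`; this map from the annihilator of `T` to `TT` is linear and
injective, so `n |DD| - finrank T ≤ finrank TT`. -/
theorem lowG {k : ℕ} (n : ℕ) (M d : Fin k → ℕ) (r : ℕ) (u : ℕ → Fin n → ℂ)
    (p : ℕ → Sg M → ℂ) :
    ((n * (DD M d).card - finrank ℂ (TT n (DD M d) r u p) : ℕ) : WithBot ℕ∞) ≤
      ringKrullDim (Algebra.adjoin ℂ (Set.range (gG n M d r))) := by
  classical
  refine krull_ge _ (tG n M r u p) _ ?_
  change _ ≤ finrank ℂ (lowT n M d r u p)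
  have h1 := Subspace.finrank_add_finrank_dualAnnihilator_eq (lowT n M d r u p)
  rw [finrank_fintype_fun_eq_card, Fintype.card_prod, Fintype.card_fin, Fintype.card_coe] at h1
  have h2 : finrank ℂ (lowT n M d r u p).dualAnnihilator ≤ finrank ℂ (TT n (DD M d) r u p) := by
    refine LinearMap.finrank_le_finrank_of_injective
      (f := LinearMap.codRestrict (TT n (DD M d) r u p)
        ((lowF n M d).comp (lowT n M d r u p).dualAnnihilator.subtype)
        fun φ => lowF_mem n M d r u p φ.1 φ.2) ?_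
    intro φ ψ h
    have h3 := congrArg Subtype.val h
    exact Subtype.ext (lowF_inj n M d h3)
  omega

end Pool.Agent.SV.G
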