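import Pool.Agent.Lib.MP_b54217_ag.I.Dd
import Pool.Agent.Lib.MP_b54217_ag.Tran

/-! # PROJECT G, interface: coordinates for `P^(n-1) × Y`, `O(1, d_1, ..., d_k)`

Pattern: `S/TranP.lean` (`ixP`, `ixP_bij`, `mcP`, `pt_ixP`, `rankLocusP_eq`, `secDim_P`). -/

set_option autoImplicit false

namespace Pool.Agent.SV.G

open MvPolynomial

/-- The monomial with exponents `e_l` and `hz d a`. -/
def ixG {k : ℕ} (n : ℕ) (M d : Fin k → ℕ) (x : Fin n × {a // a ∈ DD M d}) :
    Idx (nn n M) (dd d) :=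
  Fin.cases (motive := fun j => {m : Fin (nn n M j) → ℕ //
      m ∈ Finset.Nat.antidiagonalTuple (nn n M j) (dd d j)})
    (⟨(Pi.single x.1 1 : Fin n → ℕ), by
      change (Pi.single x.1 1 : Fin n → ℕ) ∈ Finset.Nat.antidiagonalTuple n 1
      rw [Finset.Nat.mem_antidiagonalTuple]; simp⟩)
    (fun i => ⟨(hz d x.2.1 i : Fin (M i + 1) → ℕ), by
      change (hz d x.2.1 i : Fin (M i + 1) → ℕ) ∈ Finset.Nat.antidiagonalTuple (M i + 1) (d i)
      rw [Finset.Nat.mem_antidiagonalTuple, Fin.sum_univ_succ]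
      have h := mem_DD.1 x.2.2 i
      simp only [hz, Fin.cons_zero, Fin.cons_succ]
      omega⟩)

theorem ixG_zero {k : ℕ} (n : ℕ) (M d : Fin k → ℕ) (x : Fin n × {a // a ∈ DD M d}) :
    (ixG n M d x 0).1 = (Pi.single x.1 1 : Fin n → ℕ) := rfl

theorem ixG_succ {k : ℕ} (n : ℕ) (M d : Fin k → ℕ) (x : Fin n × {a // a ∈ DD M d}) (i : Fin k) :
    (ixG n M d x i.succ).1 = (hz d x.2.1 i : Fin (M i + 1) → ℕ) := rfl

theorem ixG_bij {k : ℕ} (n : ℕ) (M d : Fin k → ℕ) : Function.Bijective (ixG n M d) := by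
  constructor
  · rintro ⟨l, a⟩ ⟨l', a'⟩ h
    have h0 : (Pi.single l 1 : Fin n → ℕ) = Pi.single l' 1 := congrArg Subtype.val (congrFun h 0)
    have h1 : ∀ i : Fin k, (hz d a.1 i : Fin (M i + 1) → ℕ) = hz d a'.1 i := fun i =>
      congrArg Subtype.val (congrFun h i.succ)
    have e0 : l = l' := by
      by_contra hne
      have := congrFun h0 l
      rw [Pi.single_eq_same, Pi.single_eq_of_ne hne] at this
      exact one_ne_zero this
    have e1 : a = a' := by
      apply Subtype.ext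
      apply Finsupp.ext
      rintro ⟨i, j⟩
      exact congrFun (h1 i) j.succ
    rw [e0, e1]
  · intro m
    have m0 : ∑ i : Fin n, ((m 0).1 : Fin n → ℕ) i = 1 :=
      Finset.Nat.mem_antidiagonalTuple.1 (m 0).2
    have m1 : ∀ i : Fin k, ((m i.succ).1 : Fin (M i + 1) → ℕ) (0 : Fin (M i + 1)) +
        ∑ j : Fin (M i), ((m i.succ).1 : Fin (M i + 1) → ℕ) j.succ = d i := by
      intro i
      have h : ∑ e : Fin (M i + 1), ((m i.succ).1 : Fin (M i + 1) → ℕ) e = d i :=
        Finset.Nat.mem_antidiagonalTuple.1 (m i.succ).2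
      rw [Fin.sum_univ_succ] at h
      exact h
    obtain ⟨l, hl⟩ := single_of_sum _ m0
    refine ⟨(l, ⟨Finsupp.equivFunOnFinite.symm fun x : Sg M =>
      ((m x.1.succ).1 : Fin (M x.1 + 1) → ℕ) x.2.succ, ?_⟩), ?_⟩
    · rw [mem_DD]
      intro i
      have h := m1 i
      simp only [Finsupp.equivFunOnFinite_symm_apply_apply]
      omega
    · funext j
      apply Subtype.ext
      refine Fin.cases (motive := fun j => (ixG n M d (l, ⟨Finsupp.equivFunOnFinite.symm fun x : Sg M =>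
        ((m x.1.succ).1 : Fin (M x.1 + 1) → ℕ) x.2.succ, _⟩) j).1 = (m j).1) ?_ (fun i => ?_) j
      · exact hl.symm
      · rw [ixG_succ]
        funext e
        refine Fin.cases (motive := fun e => hz d (Finsupp.equivFunOnFinite.symm fun x : Sg M =>
          ((m x.1.succ).1 : Fin (M x.1 + 1) → ℕ) x.2.succ) i e = ((m i.succ).1 : Fin (M i + 1) → ℕ) e) ?_ (fun e => ?_) e
        · have h := m1 i
          rw [hz, Fin.cons_zero]
          simp only [Finsupp.equivFunOnFinite_symm_apply_apply]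
          omega
        · rw [hz, Fin.cons_succ, Finsupp.equivFunOnFinite_symm_apply_apply]

/-- The product of the multinomial coefficients. -/
noncomputable def mcG {k : ℕ} (n : ℕ) (M d : Fin k → ℕ) (x : Fin n × {a // a ∈ DD M d}) : ℂ :=
  ∏ j, (Nat.multinomial Finset.univ (ixG n M d x j).1 : ℂ)

theorem mcG_ne {k : ℕ} (n : ℕ) (M d : Fin k → ℕ) (x : Fin n × {a // a ∈ DD M d}) :
    mcG n M d x ≠ 0 := by
  have h : ∀ {n : ℕ} (f : Fin n → ℕ), (Nat.multinomial Finset.univ f : ℂ) ≠ 0 := by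
    intro n f
    exact_mod_cast (Nat.multinomial_pos Finset.univ f).ne'
  exact Finset.prod_ne_zero_iff.2 fun j _ => h _

theorem pt_ixG {k : ℕ} (n : ℕ) (M d : Fin k → ℕ) (l : (j : Fin (k + 1)) → Fin (nn n M j) → ℂ)
    (x : Fin n × {a // a ∈ DD M d}) :
    pt (nn n M) (dd d) l (ixG n M d x) =
      mcG n M d x * ((l 0 : Fin n → ℂ) x.1 *
        ∏ i, ∏ e, (l i.succ : Fin (M i + 1) → ℂ) e ^ hz d x.2.1 i e) := by
  rw [pt, Finset.prod_mul_distrib, ← mcG]
  congr 1
  rw [Fin.prod_univ_succ]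
  congr 1
  exact prod_single (l 0 : Fin n → ℂ) x.1

/-- The coordinates with the multinomial coefficients. -/
noncomputable def fG {k : ℕ} (n : ℕ) (M d : Fin k → ℕ) (r : ℕ) (m : Idx (nn n M) (dd d)) :
    MvPolynomial (ParG n M r) ℂ :=
  C (mcG n M d ((Equiv.ofBijective _ (ixG_bij n M d)).symm m)) *
    gG n M d r ((Equiv.ofBijective _ (ixG_bij n M d)).symm m)

theorem eval_gG {k : ℕ} (n : ℕ) (M d : Fin k → ℕ) (r : ℕ) (t : ParG n M r → ℂ)
    (x : Fin n × {a // a ∈ DD M d}) :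
    eval t (gG n M d r x) = ∑ s : Fin r, t (s, Sum.inl x.1) *
      ∏ i, ∏ e, t (s, Sum.inr ⟨i, e⟩) ^ hz d x.2.1 i e := by
  rw [gG, map_sum]
  refine Finset.sum_congr rfl fun s _ => ?_
  rw [map_mul, eval_X, map_prod]
  congr 1
  refine Finset.prod_congr rfl fun i _ => ?_
  rw [map_prod]
  refine Finset.prod_congr rfl fun e _ => ?_
  rw [map_pow, eval_X]

theorem rankLocusG_eq {k : ℕ} (n : ℕ) (M d : Fin k → ℕ) (r : ℕ) : rankLocus (nn n M) (dd d) r =
    Set.range fun (t : ParG n M r → ℂ) m => eval t (fG n M d r m) := by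
  have key : ∀ (t : ParG n M r → ℂ) (w : Idx (nn n M) (dd d) → ℂ),
      (∀ x, w (ixG n M d x) = mcG n M d x * eval t (gG n M d r x)) →
      (fun m => eval t (fG n M d r m)) = w := by
    intro t w h
    funext m
    have h1 := h ((Equiv.ofBijective _ (ixG_bij n M d)).symm m)
    have h2 : ixG n M d ((Equiv.ofBijective _ (ixG_bij n M d)).symm m) = m :=
      (Equiv.ofBijective _ (ixG_bij n M d)).apply_symm_apply m
    rw [h2] at h1
    rw [h1, fG, map_mul, eval_C]
  ext w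
  constructor
  · rintro ⟨c, l, rfl⟩
    refine ⟨fun y => match y.2 with
      | Sum.inl i => c y.1 * (l y.1 0 : Fin n → ℂ) i
      | Sum.inr ⟨i, e⟩ => (l y.1 i.succ : Fin (M i + 1) → ℂ) e, ?_⟩
    apply key
    intro x
    rw [eval_gG, Finset.sum_apply, Finset.mul_sum]
    refine Finset.sum_congr rfl fun s _ => ?_
    rw [Pi.smul_apply, smul_eq_mul, pt_ixG]
    have h : ∀ a b u P : ℂ, a * (b * (u * P)) = b * ((a * u) * P) := fun a b u P => by ring
    exact h _ _ _ _
  · rintro ⟨t, rfl⟩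
    refine ⟨fun _ => 1, fun s => Fin.cases (motive := fun j => Fin (nn n M j) → ℂ)
      (fun i : Fin n => t (s, Sum.inl i)) (fun i (e : Fin (M i + 1)) => t (s, Sum.inr ⟨i, e⟩)), ?_⟩
    apply key
    intro x
    rw [eval_gG, Finset.sum_apply, Finset.mul_sum]
    refine Finset.sum_congr rfl fun s _ => ?_
    rw [Pi.smul_apply, smul_eq_mul, pt_ixG, one_mul]
    rfl

theorem secDim_G {k : ℕ} (n : ℕ) (M d : Fin k → ℕ) (r : ℕ) :
    secDim (nn n M) (dd d) r = ringKrullDim (Algebra.adjoin ℂ (Set.range (gG n M d r))) := by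
  rw [secDim, krull_image (fG n M d r) _ (rankLocusG_eq n M d r)]
  have h : Algebra.adjoin ℂ (Set.range (fG n M d r)) =
      Algebra.adjoin ℂ (Set.range (gG n M d r)) := by
    apply le_antisymm
    · rw [Algebra.adjoin_le_iff]
      rintro _ ⟨m, rfl⟩
      rw [fG]
      exact Subalgebra.mul_mem _ (Subalgebra.algebraMap_mem _ _)
        (Algebra.subset_adjoin ⟨_, rfl⟩)
    · rw [Algebra.adjoin_le_iff]
      rintro _ ⟨x, rfl⟩
      have h1 : gG n M d r x = C ((mcG n M d x)⁻¹) * fG n M d r (ixG n M d x) := by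
        rw [fG]
        have h2 : (Equiv.ofBijective _ (ixG_bij n M d)).symm (ixG n M d x) = x :=
          (Equiv.ofBijective _ (ixG_bij n M d)).symm_apply_apply x
        rw [h2, ← mul_assoc, ← C_mul, inv_mul_cancel₀ (mcG_ne n M d x), C_1, one_mul]
      rw [h1]
      exact Subalgebra.mul_mem _ (Subalgebra.algebraMap_mem _ _)
        (Algebra.subset_adjoin ⟨_, rfl⟩)
  rw [h]

end Pool.Agent.SV.G
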