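import Pool.Agent.Lib.MP_b54217_ag.I.Dd
import Pool.Agent.Lib.MP_b54217_ag.AlgB

/-! # PROJECT G, interface: upper bounds

Pattern: `S/Up.lean`, `S/UpP.lean`, `krull_le` (in `AlgB`). -/

set_option autoImplicit false

namespace Pool.Agent.SV.G

open MvPolynomial

theorem upG_amb {k : ℕ} (n : ℕ) (M d : Fin k → ℕ) (r : ℕ) :
    ringKrullDim (Algebra.adjoin ℂ (Set.range (gG n M d r))) ≤
      ((n * (DD M d).card : ℕ) : WithBot ℕ∞) := by
  have h := krull_le (gG n M d r) (Algebra.ofId (MvPolynomial (ParG n M r) ℂ)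
    (FractionRing (MvPolynomial (ParG n M r) ℂ)) |>.restrictScalars ℂ)
    (IsFractionRing.injective _ _)
    (fun x => algebraMap (MvPolynomial (ParG n M r) ℂ)
      (FractionRing (MvPolynomial (ParG n M r) ℂ)) (gG n M d r x))
    (fun x => IntermediateField.subset_adjoin ℂ _ ⟨x, rfl⟩)
  refine h.trans (le_of_eq ?_)
  rw [Fintype.card_prod, Fintype.card_fin, Fintype.card_coe]

/-- Dehomogenising one factor. -/
theorem upG_hom {K : Type} [Field K] {m : ℕ} (z : Fin (m + 1) → K) (h : z 0 ≠ 0) (D : ℕ)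
    (a : Fin m → ℕ) (ha : ∑ j, a j ≤ D) :
    z 0 ^ (D - ∑ j, a j) * ∏ j : Fin m, z j.succ ^ a j =
      z 0 ^ D * ∏ j : Fin m, (z j.succ / z 0) ^ a j := by
  have h1 : ∏ j : Fin m, (z j.succ / z 0) ^ a j =
      (∏ j : Fin m, z j.succ ^ a j) / z 0 ^ (∑ j, a j) := by
    rw [← Finset.prod_pow_eq_pow_sum, ← Finset.prod_div_distrib]
    exact Finset.prod_congr rfl fun j _ => div_pow _ _ _
  have h2 : z 0 ^ D = z 0 ^ (D - ∑ j, a j) * z 0 ^ (∑ j, a j) := by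
    rw [← pow_add, Nat.sub_add_cancel ha]
  have h3 : z 0 ^ (∑ j, a j) ≠ 0 := pow_ne_zero _ h
  rw [h1, h2, mul_assoc, mul_div_cancel₀ _ h3]

/-- The field generated by `U s l = X(s,l) ∏_i X(s,(i,0))^(d i)` and
`y s (i,j) = X(s,(i,j+1)) / X(s,(i,0))` contains all coordinates. -/
theorem upG_par {k : ℕ} (n : ℕ) (M d : Fin k → ℕ) (r : ℕ) :
    ringKrullDim (Algebra.adjoin ℂ (Set.range (gG n M d r))) ≤
      ((r * (n + ∑ i, M i) : ℕ) : WithBot ℕ∞) := by
  let R := MvPolynomial (ParG n M r) ℂ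
  let L := FractionRing R
  let φ : R →ₐ[ℂ] L := (Algebra.ofId R L).restrictScalars ℂ
  have hφ : Function.Injective φ := IsFractionRing.injective R L
  have hX : ∀ σ : ParG n M r, φ (X σ) ≠ 0 := by
    intro σ h
    rw [← map_zero φ] at h
    exact X_ne_zero σ (hφ h)
  let g : Fin r × (Fin n ⊕ Sg M) → L := fun y => match y.2 with
    | Sum.inl l => φ (X (y.1, Sum.inl l)) * ∏ i, φ (X (y.1, Sum.inr ⟨i, 0⟩)) ^ d i
    | Sum.inr p => φ (X (y.1, Sum.inr ⟨p.1, p.2.succ⟩)) / φ (X (y.1, Sum.inr ⟨p.1, 0⟩))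
  have hg : ∀ y, g y ∈ IntermediateField.adjoin ℂ (Set.range g) := fun y =>
    IntermediateField.subset_adjoin ℂ _ ⟨y, rfl⟩
  have h1 := krull_le (gG n M d r) φ hφ g ?_
  · refine h1.trans (le_of_eq ?_)
    congr 2
    rw [Fintype.card_prod, Fintype.card_fin, Fintype.card_sum, Fintype.card_fin,
      Fintype.card_sigma]
    congr 2
    exact Finset.sum_congr rfl fun i _ => Fintype.card_fin _
  · rintro ⟨l, a⟩
    have h2 : φ (gG n M d r (l, a)) = ∑ s : Fin r, g (s, Sum.inl l) *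
        ∏ i, ∏ j, g (s, Sum.inr ⟨i, j⟩) ^ a.1 ⟨i, j⟩ := by
      rw [gG, map_sum]
      refine Finset.sum_congr rfl fun s _ => ?_
      rw [map_mul, map_prod]
      have h3 : ∀ i : Fin k, φ (∏ e, X (s, Sum.inr ⟨i, e⟩) ^ hz d a.1 i e) =
          φ (X (s, Sum.inr ⟨i, 0⟩)) ^ d i * ∏ j, g (s, Sum.inr ⟨i, j⟩) ^ a.1 ⟨i, j⟩ := by
        intro i
        rw [map_prod, Fin.prod_univ_succ]
        simp only [map_pow]
        exact upG_hom (fun e => φ (X (s, Sum.inr ⟨i, e⟩))) (hX _) (d i) (fun j => a.1 ⟨i, j⟩)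
          (mem_DD.1 a.2 i)
      rw [Finset.prod_congr rfl fun i _ => h3 i, Finset.prod_mul_distrib, ← mul_assoc]
    rw [h2]
    exact sum_mem fun s _ => mul_mem (hg (s, Sum.inl l)) (prod_mem fun i _ =>
      prod_mem fun j _ => pow_mem (hg (s, Sum.inr ⟨i, j⟩)) _)

end Pool.Agent.SV.G
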