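import Pool.Agent.Lib.MP_b54217_ag.G.Defs
import Pool.Agent.Lib.MP_b54217_ag.Defs

/-! # PROJECT G, interface: the exponents of a product of projective spaces -/

set_option autoImplicit false

namespace Pool.Agent.SV.G

open MvPolynomial

/-- The affine coordinates of `∏ P^{M i}`. -/
abbrev Sg {k : ℕ} (M : Fin k → ℕ) : Type := (i : Fin k) × Fin (M i)

/-- The exponents of the dehomogenised polynomials of multidegree `d`. -/
noncomputable def DD {k : ℕ} (M d : Fin k → ℕ) : Finset (Sg M →₀ ℕ) :=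
  (Finset.Iic (Finsupp.equivFunOnFinite.symm fun x : Sg M => d x.1)).filter
    fun a => ∀ i, ∑ j, a ⟨i, j⟩ ≤ d i

theorem mem_DD {k : ℕ} {M d : Fin k → ℕ} {a : Sg M →₀ ℕ} :
    a ∈ DD M d ↔ ∀ i, ∑ j, a ⟨i, j⟩ ≤ d i := by
  classical
  rw [DD, Finset.mem_filter, Finset.mem_Iic]
  refine ⟨fun h => h.2, fun h => ⟨fun x => ?_, h⟩⟩
  rw [Finsupp.equivFunOnFinite_symm_apply_apply]
  obtain ⟨i, j⟩ := x
  exact (Finset.single_le_sum (f := fun j => a ⟨i, j⟩) (fun _ _ => Nat.zero_le _)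
    (Finset.mem_univ j)).trans (h i)

/-- The numbers `n_j` of `P^{n-1} × ∏ P^{M i}`. -/
abbrev nn {k : ℕ} (n : ℕ) (M : Fin k → ℕ) : Fin (k + 1) → ℕ := Fin.cons n fun i => M i + 1

/-- The multidegree `(1, d_1, ..., d_k)`. -/
abbrev dd {k : ℕ} (d : Fin k → ℕ) : Fin (k + 1) → ℕ := Fin.cons 1 d

/-- The exponents of the homogenised monomial in the variables of the factor number `i`. -/
def hz {k : ℕ} {M : Fin k → ℕ} (d : Fin k → ℕ) (a : Sg M →₀ ℕ) (i : Fin k) :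
    Fin (M i + 1) → ℕ :=
  Fin.cons (d i - ∑ j, a ⟨i, j⟩) fun j => a ⟨i, j⟩

/-- Parameters. -/
abbrev ParG {k : ℕ} (n : ℕ) (M : Fin k → ℕ) (r : ℕ) : Type :=
  Fin r × (Fin n ⊕ ((i : Fin k) × Fin (M i + 1)))

/-- The coordinates of `∑_s u_s ⊗ z_{s,1}^{d_1} ⊗ ... ⊗ z_{s,k}^{d_k}` without the multinomial
coefficients. -/
noncomputable def gG {k : ℕ} (n : ℕ) (M d : Fin k → ℕ) (r : ℕ) (x : Fin n × {a // a ∈ DD M d}) :
    MvPolynomial (ParG n M r) ℂ :=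
  ∑ s : Fin r, X (s, Sum.inl x.1) * ∏ i, ∏ e, X (s, Sum.inr ⟨i, e⟩) ^ hz d x.2.1 i e

end Pool.Agent.SV.G
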