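import Pool.Agent.Lib.MP_b54217_ag.I.Dd

/-! # PROJECT G, interface: numbers of exponents -/

set_option autoImplicit false

namespace Pool.Agent.SV.G

open MvPolynomial

theorem card_Sg {k : ℕ} (M : Fin k → ℕ) : Fintype.card (Sg M) = ∑ i, M i := by
  simp

/-- `antidiagonalTuple (m + 1) d` has `(m + d choose m)` elements
(`Finset.card_finsuppAntidiag_nat_eq_choose`). -/
theorem card_tuple (m d : ℕ) :
    (Finset.Nat.antidiagonalTuple (m + 1) d).card = (m + d).choose m := by
  have h1 : (Finset.Nat.antidiagonalTuple (m + 1) d).card =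
      (Finset.finsuppAntidiag (Finset.univ : Finset (Fin (m + 1))) d).card := by
    refine Finset.card_nbij' (fun f => Finsupp.equivFunOnFinite.symm f)
      (fun f => Finsupp.equivFunOnFinite f) ?_ ?_ ?_ ?_
    · intro f hf
      rw [Finset.mem_coe, Finset.Nat.mem_antidiagonalTuple] at hf
      rw [Finset.mem_coe, Finset.mem_finsuppAntidiag]
      exact ⟨hf, Finset.subset_univ _⟩
    · intro f hf
      rw [Finset.mem_coe, Finset.mem_finsuppAntidiag] at hf
      rw [Finset.mem_coe, Finset.Nat.mem_antidiagonalTuple]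
      exact hf.1
    · intro f _
      exact Equiv.apply_symm_apply _ f
    · intro f _
      exact Equiv.symm_apply_apply _ f
  rw [h1, Finset.card_finsuppAntidiag_nat_eq_choose, Finset.card_univ, Fintype.card_fin,
    show m + 1 + d - 1 = m + d by omega]
  exact (Nat.choose_symm_add).symm

theorem card_Idx {k : ℕ} (n d : Fin k → ℕ) :
    Fintype.card (Idx n d) = ∏ i, (Finset.Nat.antidiagonalTuple (n i) (d i)).card := by
  rw [Fintype.card_pi]
  exact Finset.prod_congr rfl fun i _ => Fintype.card_coe _

/-- Bijection with `Idx (M + 1) d`: `a ↦ hz d a`. -/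
theorem card_DD {k : ℕ} (M d : Fin k → ℕ) :
    (DD M d).card = ∏ i, (M i + d i).choose (M i) := by
  have h1 : (DD M d).card = Fintype.card (Idx (fun i => M i + 1) d) := by
    rw [← Fintype.card_coe]
    refine Fintype.card_congr ⟨fun a i => ⟨hz d a.1 i, ?_⟩,
      fun b => ⟨Finsupp.equivFunOnFinite.symm fun x : Sg M => (b x.1).1 x.2.succ, ?_⟩, ?_, ?_⟩
    · rw [Finset.Nat.mem_antidiagonalTuple, Fin.sum_univ_succ]
      have h2 := mem_DD.1 a.2 i
      show (d i - ∑ j, a.1 ⟨i, j⟩) + ∑ j, a.1 ⟨i, j⟩ = d i
      omega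
    · rw [mem_DD]
      intro i
      have h2 := Finset.Nat.mem_antidiagonalTuple.1 (b i).2
      rw [Fin.sum_univ_succ] at h2
      have h3 : ∑ j, (Finsupp.equivFunOnFinite.symm
          fun x : Sg M => (b x.1).1 x.2.succ) ⟨i, j⟩ = ∑ j : Fin (M i), (b i).1 j.succ := rfl
      rw [h3]
      omega
    · intro a
      apply Subtype.ext
      apply Finsupp.ext
      intro x
      rfl
    · intro b
      funext i
      apply Subtype.ext
      funext e
      have h2 := Finset.Nat.mem_antidiagonalTuple.1 (b i).2
      rw [Fin.sum_univ_succ] at h2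
      refine Fin.cases ?_ (fun j => ?_) e
      · show d i - ∑ j : Fin (M i), (b i).1 j.succ = (b i).1 0
        omega
      · rfl
  rw [h1, card_Idx]
  exact Finset.prod_congr rfl fun i _ => card_tuple _ _

theorem card_IdxG {k : ℕ} (n : ℕ) (M d : Fin k → ℕ) :
    Fintype.card (Idx (nn n M) (dd d)) = n * (DD M d).card := by
  rw [card_Idx, Fin.prod_univ_succ, card_DD]
  congr 1
  · show (Finset.Nat.antidiagonalTuple n 1).card = n
    cases n with
    | zero => rw [Finset.Nat.antidiagonalTuple_zero_succ, Finset.card_empty]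
    | succ m => rw [card_tuple, Nat.choose_succ_self_right]
  · exact Finset.prod_congr rfl fun i _ => card_tuple _ _

end Pool.Agent.SV.G
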