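import Pool.Agent.Lib.MP_b54217_ag.G.Scalar
import Pool.Agent.Lib.MP_b54217_ag.G.GenB

/-! # PROJECT G, interface: a nonzero minor (pattern: `S/Minor.lean`) -/

set_option autoImplicit false

namespace Pool.Agent.SV.G

open MvPolynomial Module

/-- General points have independent values: the matrix of the values of the monomials is
surjective. -/
theorem minor_surj {σ : Type} [Fintype σ] [DecidableEq σ] (D : Finset (σ →₀ ℕ)) {r : ℕ}
    (hr : r ≤ D.card) : ∃ p : Fin r → σ → ℂ, Function.Surjective
      (Matrix.of fun (s : Fin r) (a : {a // a ∈ D}) => ∏ x, p s x ^ a.1 x).mulVec := by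
  classical
  obtain ⟨p, -, hp⟩ := add_simple D ⊤ (Finset.range r) fun _ _ => 0
  rw [top_inf_eq, finrank_top, finrank_H, Finset.card_range] at hp
  let E : H D →ₗ[ℂ] (Fin r → ℂ) := LinearMap.pi fun s =>
    ((aeval (p s) : MvPolynomial σ ℂ →ₐ[ℂ] ℂ).toLinearMap).comp (H D).subtype
  have hE : ∀ (f : H D) (s : Fin r), E f s = eval (p s) (f : MvPolynomial σ ℂ) := fun f s => rfl
  have hker : LinearMap.ker E ≤ KS D p (Finset.range r) ∅ := by
    intro f hf
    refine ⟨fun k hk => ?_, fun k hk => absurd hk (Finset.notMem_empty k)⟩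
    have h1 := congrFun (LinearMap.mem_ker.1 hf) ⟨k, Finset.mem_range.1 hk⟩
    rw [hE] at h1
    exact h1
  have h1 : finrank ℂ (LinearMap.range E) + finrank ℂ (LinearMap.ker E) = finrank ℂ (H D) :=
    LinearMap.finrank_range_add_finrank_ker E
  have h2 := Submodule.finrank_mono hker
  rw [finrank_H] at h1
  have h3 : LinearMap.range E = ⊤ := by
    apply Submodule.eq_top_of_finrank_eq
    have h4 := Submodule.finrank_le (LinearMap.range E)
    rw [finrank_fintype_fun_eq_card, Fintype.card_fin] at h4 ⊢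
    omega
  refine ⟨fun s => p s, fun b => ?_⟩
  obtain ⟨f, hf⟩ := LinearMap.range_eq_top.1 h3 b
  refine ⟨fun a => coeff a.1 (f : MvPolynomial σ ℂ), ?_⟩
  funext s
  rw [← hf, hE, Matrix.mulVec, dotProduct, eval_eq']
  have hsupp : (f : MvPolynomial σ ℂ).support ⊆ D := by
    have h5 : (f : MvPolynomial σ ℂ) ∈ restrictSupport ℂ (D : Set (σ →₀ ℕ)) := f.2
    rw [mem_restrictSupport_iff] at h5
    exact Finset.coe_subset.1 h5
  rw [Finset.sum_subset hsupp (fun a _ ha => by rw [notMem_support_iff.1 ha, zero_mul]),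
    ← Finset.sum_coe_sort D]
  refine Finset.sum_congr rfl fun a _ => ?_
  rw [Matrix.of_apply, mul_comm]

/-- `r ≤ |D|`: there are `r` points and `r` exponents with a nonzero minor (`sc` with `A = ∅` and
rank-nullity, or directly by induction on `r`). -/
theorem exists_minorG {σ : Type} [Fintype σ] [DecidableEq σ] (D : Finset (σ →₀ ℕ)) {r : ℕ}
    (hr : r ≤ D.card) : ∃ (p : Fin r → σ → ℂ) (e : Fin r → {a // a ∈ D}),
      Function.Injective e ∧
      (Matrix.of fun s s' : Fin r => ∏ x, p s x ^ (e s').1 x).det ≠ 0 := by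
  classical
  obtain ⟨p, hsurj⟩ := minor_surj D hr
  let M : Matrix (Fin r) {a // a ∈ D} ℂ := Matrix.of fun s a => ∏ x, p s x ^ a.1 x
  have hrank : M.rank = r := by
    have h3 : LinearMap.range M.mulVecLin = ⊤ := LinearMap.range_eq_top.2 hsurj
    rw [Matrix.rank, h3, finrank_top, Module.finrank_fintype_fun_eq_card, Fintype.card_fin]
  rw [Matrix.rank_eq_finrank_span_cols] at hrank
  obtain ⟨v, hv1, -, hv3⟩ := Submodule.exists_fun_fin_finrank_span_eq ℂ (Set.range M.col)
  choose j0 hj0 using hv1
  let j : Fin r → {a // a ∈ D} := fun s => j0 (Fin.cast hrank.symm s)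
  have hj : LinearIndependent ℂ fun s => M.col (j s) := by
    have h4 := hv3.comp (Fin.cast hrank.symm) (Fin.cast_injective _)
    have h5 : (v ∘ Fin.cast hrank.symm) = fun s => M.col (j s) := by
      funext s
      exact (hj0 _).symm
    rwa [h5] at h4
  have hjinj : Function.Injective j := by
    intro s s' hss
    exact hj.injective (congrArg M.col hss)
  refine ⟨p, j, hjinj, ?_⟩
  have hunit : IsUnit (Matrix.of fun s s' : Fin r => ∏ x, p s x ^ (j s').1 x) := by
    rw [← Matrix.linearIndependent_cols_iff_isUnit]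
    exact hj
  rw [Matrix.isUnit_iff_isUnit_det] at hunit
  exact hunit.ne_zero

end Pool.Agent.SV.G
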