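import Pool.Agent.Lib.MP_b54217_ag.I.Dd
import Pool.Agent.Lib.MP_b54217_ag.I.Minor
import Pool.Agent.Lib.MP_b54217_ag.AlgB

/-! # PROJECT G, interface: the rank bound

Pattern: `up_unb` in `S/Up.lean`, `upP_unb` in `S/UpP.lean`. -/

set_option autoImplicit false

namespace Pool.Agent.SV.G

open MvPolynomial Module

/-- The `n r` coordinates `φ (f (l, e s'))` and the `r (N - r)` coefficients
`A⁻¹ M(·, x)`, `x` not in the range of `e`, generate a field containing all coordinates. -/
theorem up_rank {σ L J : Type} [Fintype J] [DecidableEq J] [Field L] [Algebra ℂ L] {n r : ℕ}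
    (f : Fin n × J → MvPolynomial σ ℂ) (φ : MvPolynomial σ ℂ →ₐ[ℂ] L)
    (hφ : Function.Injective φ) (U : Fin r → Fin n → L) (M : Fin r → J → L)
    (h : ∀ x, φ (f x) = ∑ s, U s x.1 * M s x.2) (e : Fin r → J) (he : Function.Injective e)
    (hdet : (Matrix.of fun s s' : Fin r => M s (e s')).det ≠ 0) :
    ringKrullDim (Algebra.adjoin ℂ (Set.range f)) ≤
      ((r * (n + (Fintype.card J - r)) : ℕ) : WithBot ℕ∞) := by
  classical
  set A : Matrix (Fin r) (Fin r) L := Matrix.of fun s s' : Fin r => M s (e s') with hA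
  let w : J → Fin r → L := fun x => A⁻¹.mulVec fun s => M s x
  have hw : ∀ x s, M s x = ∑ s', M s (e s') * w x s' := by
    intro x s
    have h1 : A.mulVec (w x) = fun s => M s x := by
      rw [Matrix.mulVec_mulVec, Matrix.mul_nonsing_inv _ (isUnit_iff_ne_zero.2 hdet),
        Matrix.one_mulVec]
    exact (congrFun h1 s).symm
  let g : Fin r × (Fin n ⊕ {x // x ∈ (Finset.univ.image e)ᶜ}) → L := fun y => match y.2 with
    | Sum.inl l => φ (f (l, e y.1))
    | Sum.inr x => w x.1 y.1
  have hg : ∀ y, g y ∈ IntermediateField.adjoin ℂ (Set.range g) := fun y =>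
    IntermediateField.subset_adjoin ℂ _ ⟨y, rfl⟩
  have h1 := krull_le f φ hφ g ?_
  · refine h1.trans (le_of_eq ?_)
    congr 2
    rw [Fintype.card_prod, Fintype.card_sum, Fintype.card_fin, Fintype.card_fin,
      Fintype.card_coe, Finset.card_compl, Finset.card_image_of_injective _ he,
      Finset.card_univ, Fintype.card_fin]
  · rintro ⟨l, x⟩
    by_cases hx : x ∈ Finset.univ.image e
    · obtain ⟨s, -, rfl⟩ := Finset.mem_image.1 hx
      exact hg (s, Sum.inl l)
    · have h2 : φ (f (l, x)) = ∑ s', φ (f (l, e s')) * w x s' := by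
        rw [h]
        simp only [h, Finset.sum_mul]
        rw [Finset.sum_comm]
        refine Finset.sum_congr rfl fun s _ => ?_
        rw [hw x s, Finset.mul_sum]
        refine Finset.sum_congr rfl fun s' _ => ?_
        ring
      rw [h2]
      exact sum_mem fun s' _ => mul_mem (hg (s', Sum.inl l))
        (hg (s', Sum.inr ⟨x, Finset.mem_compl.2 hx⟩))

/-- The point with the affine coordinates `p`. -/
noncomputable def tR {k : ℕ} (n : ℕ) (M : Fin k → ℕ) {r : ℕ} (p : Fin r → Sg M → ℂ) :
    ParG n M r → ℂ := fun x => match x with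
  | (_, Sum.inl _) => 0
  | (s, Sum.inr ⟨i, e⟩) => (Fin.cons 1 fun j => p s ⟨i, j⟩ : Fin (M i + 1) → ℂ) e

/-- `up_rank` with `exists_minorG`, specialisation `X (s,(i,0)) = 1`, `X (s,(i,j+1)) = p s (i,j)`
of the determinant. -/
theorem upG_rank {k : ℕ} (n : ℕ) (M d : Fin k → ℕ) {r : ℕ} (hr : r ≤ (DD M d).card) :
    ringKrullDim (Algebra.adjoin ℂ (Set.range (gG n M d r))) ≤
      ((r * (n + ((DD M d).card - r)) : ℕ) : WithBot ℕ∞) := by
  classical
  obtain ⟨p, e, he, hdet⟩ := exists_minorG (DD M d) hr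
  let R := MvPolynomial (ParG n M r) ℂ
  let L := FractionRing R
  let φ : R →ₐ[ℂ] L := (Algebra.ofId R L).restrictScalars ℂ
  have hφ : Function.Injective φ := IsFractionRing.injective R L
  let m : Fin r → {a // a ∈ DD M d} → R := fun s x =>
    ∏ i, ∏ e, X (s, Sum.inr ⟨i, e⟩) ^ hz d x.1 i e
  have hcard : Fintype.card {a // a ∈ DD M d} = (DD M d).card := Fintype.card_coe _
  rw [← hcard]
  refine up_rank (gG n M d r) φ hφ (fun s l => φ (X (s, Sum.inl l))) (fun s x => φ (m s x)) ?_
    e he ?_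
  · intro x
    rw [gG, map_sum]
    refine Finset.sum_congr rfl fun s _ => ?_
    rw [map_mul]
  · let A : Matrix (Fin r) (Fin r) R := Matrix.of fun s s' => m s (e s')
    have h1 : (Matrix.of fun s s' : Fin r => φ (m s (e s'))) = φ.mapMatrix A := rfl
    rw [h1, ← AlgHom.map_det]
    intro h2
    rw [← map_zero φ] at h2
    have h3 : A.det = 0 := hφ h2
    apply hdet
    have h4 : eval (tR n M p) A.det = 0 := by rw [h3, map_zero]
    rw [RingHom.map_det] at h4
    refine Eq.trans ?_ h4
    congr 1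
    ext s s'
    rw [RingHom.mapMatrix_apply, Matrix.map_apply]
    simp only [A, m, Matrix.of_apply, map_prod, map_pow, eval_X]
    rw [Fintype.prod_sigma]
    refine Finset.prod_congr rfl fun i _ => ?_
    rw [Fin.prod_univ_succ]
    simp only [tR, hz, Fin.cons_zero, Fin.cons_succ, one_pow, one_mul]

end Pool.Agent.SV.G
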