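import Pool.Agent.Lib.MP_b54217_ag.I.Conv
import Pool.Agent.Lib.MP_b54217_ag.I.CardB
import Pool.Agent.Lib.MP_b54217_ag.I.Tran
import Pool.Agent.Lib.MP_b54217_ag.I.Low
import Pool.Agent.Lib.MP_b54217_ag.I.Up
import Pool.Agent.Lib.MP_b54217_ag.I.UpR
import Pool.Agent.Lib.MP_b54217_ag.G.MainG
import Pool.Agent.Lib.MP_b54217_ag.G.OutU
import Pool.Agent.Lib.MP_b54217_ag.E.Small

/-! # PROJECT G: the theorem -/

set_option autoImplicit false

namespace Pool.Agent.SV.G

open MvPolynomial Module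

section

variable {k : ℕ} {n : ℕ} {M d : Fin k → ℕ} {r : ℕ}

/-- The balanced case. -/
theorem secDim_bal (h : ∃ (u : ℕ → Fin n → ℂ) (p : ℕ → Sg M → ℂ),
    finrank ℂ (TT n (DD M d) r u p) ≤ n * (DD M d).card - r * (n + ∑ i, M i)) :
    secDim (nn n M) (dd d) r =
      ((min (r * (n + ∑ i, M i)) (n * (DD M d).card) : ℕ) : WithBot ℕ∞) := by
  obtain ⟨u, p, h⟩ := h
  rw [secDim_G]
  apply le_antisymm
  · rcases le_total (r * (n + ∑ i, M i)) (n * (DD M d).card) with h2 | h2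
    · rw [min_eq_left h2]
      exact upG_par n M d r
    · rw [min_eq_right h2]
      exact upG_amb n M d r
  · refine le_trans ?_ (lowG n M d r u p)
    have h1 : min (r * (n + ∑ i, M i)) (n * (DD M d).card) ≤
        n * (DD M d).card - finrank ℂ (TT n (DD M d) r u p) := by
      rcases le_total (r * (n + ∑ i, M i)) (n * (DD M d).card) with h2 | h2
      · rw [min_eq_left h2]
        omega
      · rw [min_eq_right h2]
        omega
    exact_mod_cast h1

/-- The unbalanced case. -/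
theorem secDim_unb (hr : r ≤ n) (hr2 : r ≤ (DD M d).card)
    (h : ∃ (u : ℕ → Fin n → ℂ) (p : ℕ → Sg M → ℂ),
      finrank ℂ (TT n (DD M d) r u p) ≤ (n - r) * ((DD M d).card - r)) :
    secDim (nn n M) (dd d) r = ((r * (n + ((DD M d).card - r)) : ℕ) : WithBot ℕ∞) := by
  obtain ⟨u, p, h⟩ := h
  rw [secDim_G]
  apply le_antisymm
  · exact upG_rank n M d hr2
  · refine le_trans ?_ (lowG n M d r u p)
    have h1 : r * (n + ((DD M d).card - r)) ≤
        n * (DD M d).card - finrank ℂ (TT n (DD M d) r u p) := by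
      obtain ⟨a, rfl⟩ := Nat.exists_eq_add_of_le hr
      obtain ⟨b, hb⟩ := Nat.exists_eq_add_of_le hr2
      rw [hb] at h ⊢
      rw [Nat.add_sub_cancel_left] at h ⊢
      rw [Nat.add_sub_cancel_left] at h
      have e1 : (r + a) * (r + b) = r * (r + a + b) + a * b := by ring
      rw [e1]
      omega
    exact_mod_cast h1

end

/-- Numbers `n ≥ m + 1`. -/
def Big {k : ℕ} (M d : Fin k → ℕ) (m N : ℕ) : Prop :=
  (∀ i, 2 ≤ d i) ∧
  (∀ i, (m + 1) * (2 * N + (2 * m + 1) * (3 * m - 2)) * (M i + d i) ≤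
    2 * (2 * m + 1) * (N * d i)) ∧
  (2 * m + 1) * (m * (m + 2)) ≤ N

theorem good_of_big {k : ℕ} {M d : Fin k → ℕ} {m : ℕ} (hm : ∑ i, M i = m) (h2 : 2 ≤ m)
    (h : Big M d m (DD M d).card) : Good (DD M d) := by
  obtain ⟨h3, h4, h5⟩ := h
  have hc : Fintype.card (Sg M) = m := by rw [card_Sg, hm]
  refine ⟨by rw [hc]; exact h2, fun a ha => low_DD h3 a ha, fun x => ?_, by rw [hc]; exact h5⟩
  rw [hc]
  have h6 := h4 x.1
  have h7 := card_Dj M d x
  have h8 : 0 < M x.1 + d x.1 := by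
    have := h3 x.1
    omega
  have h9 : (m + 1) * (2 * (DD M d).card + (2 * m + 1) * (3 * m - 2)) * (M x.1 + d x.1) ≤
      2 * (2 * m + 1) * (Dj (DD M d) x).card * (M x.1 + d x.1) := by
    calc (m + 1) * (2 * (DD M d).card + (2 * m + 1) * (3 * m - 2)) * (M x.1 + d x.1)
        ≤ 2 * (2 * m + 1) * ((DD M d).card * d x.1) := h6
      _ = 2 * (2 * m + 1) * ((Dj (DD M d) x).card * (M x.1 + d x.1)) := by rw [h7]
      _ = 2 * (2 * m + 1) * (Dj (DD M d) x).card * (M x.1 + d x.1) := by ring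
  exact Nat.le_of_mul_le_mul_right h9 h8

/-- `n ≥ m + 1`. -/
theorem dim_large {k : ℕ} {M d : Fin k → ℕ} {m n : ℕ} (hm : ∑ i, M i = m) (h2 : 2 ≤ m)
    (hn : m + 1 ≤ n) (h : Big M d m (DD M d).card) (r : ℕ) :
    secDim (nn n M) (dd d) r =
      ((if (DD M d).card < r + m ∧ r < (DD M d).card ∧ r < n
        then r * (n + ((DD M d).card - r))
        else min (r * (n + m)) (n * (DD M d).card) : ℕ) : WithBot ℕ∞) := by
  classical
  have hG := good_of_big hm h2 h
  have hc : Fintype.card (Sg M) = m := by rw [card_Sg, hm]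
  by_cases h3 : (DD M d).card < r + m ∧ r < (DD M d).card ∧ r < n
  · rw [if_pos h3]
    have hne : Nonempty (Sg M) := by
      rw [← Fintype.card_pos_iff, hc]
      omega
    refine secDim_unb h3.2.2.le h3.2.1.le ?_
    have hcap : Cap (DD M d) (Fintype.card (Sg M) + 1) := by
      have h4 := num_cap hG (n := n) (h := 1) (by rw [hc]; exact hn) (by
        rw [hc]
        have := h.2.2
        have h5 : m ≤ (2 * m + 1) * (m * (m + 2)) := by
          calc m = 1 * (m * 1) := by ring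
            _ ≤ (2 * m + 1) * (m * (m + 2)) :=
              Nat.mul_le_mul (by omega) (Nat.mul_le_mul_left _ (by omega))
        omega)
      rwa [mul_one] at h4
    exact main_unb hcap (by rw [hc]; omega) h3.2.2.le
  · rw [if_neg h3, ← hm]
    refine secDim_bal ?_
    have h4 := main_bal hG (n := n) (by rw [hc]; exact hn) r (by
      rw [hc]
      tauto)
    rw [hc, ← hm] at h4
    exact h4

/-- `n ≤ m`. -/
theorem dim_small {k : ℕ} {M d : Fin k → ℕ} {m n : ℕ} (hm : ∑ i, M i = m) (hn : 2 ≤ n)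
    (hnm : n ≤ m) (hd : ∀ i, (m + 1) * M i ≤ (n - 1) * (d i - 2)) (i0 : Fin k)
    (hi0 : 1 ≤ M i0)
    (hbig : (n + m) * (n + m - 1) ^ 2 * (M i0 + d i0) ≤ M i0 * (DD M d).card) (r : ℕ) :
    secDim (nn n M) (dd d) r =
      ((min (r * (n + m)) (n * (DD M d).card) : ℕ) : WithBot ℕ∞) := by
  have hc : Fintype.card (Sg M) = m := by rw [card_Sg, hm]
  have h1 : ∃ (u : ℕ → Fin n → ℂ) (p : ℕ → Sg M → ℂ),
      finrank ℂ (TT n (DD M d) (n * (DD M d).card / (n + m)) u p) ≤
        n * (DD M d).card - n * (DD M d).card / (n + m) * (n + m) := by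
    obtain ⟨u, y, h⟩ := E.small_two hm hn hnm hd i0 hi0 hbig _ (Or.inl rfl)
    exact tt_of_full _ u y h
  have h2 : ∃ (u : ℕ → Fin n → ℂ) (p : ℕ → Sg M → ℂ),
      finrank ℂ (TT n (DD M d) (n * (DD M d).card / (n + m) + 1) u p) ≤ 0 := by
    obtain ⟨u, y, h⟩ := E.small_two hm hn hnm hd i0 hi0 hbig _ (Or.inr rfl)
    obtain ⟨u', p, h'⟩ := tt_of_full _ u y h
    refine ⟨u', p, h'.trans ?_⟩
    have h3 : n * (DD M d).card < (n + m) * (n * (DD M d).card / (n + m) + 1) :=
      Nat.lt_mul_div_succ _ (by omega)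
    rw [mul_comm (n + m)] at h3
    omega
  rw [← hc] at h1 h2
  have h3 := tt_all (DD M d) _ (Nat.div_mul_le_self _ _) h1 h2 r
  rw [hc, ← hm] at h3
  rw [← hm]
  exact secDim_bal h3

/-- Large `N` in the case `n ≤ m`. -/
theorem big_small {k : ℕ} {M d : Fin k → ℕ} {m n : ℕ} (hn : 2 ≤ n)
    (i0 : Fin k) (hi0 : 1 ≤ M i0)
    (hbig : (n + m) * (n + m - 1) ^ 2 * (M i0 + d i0) ≤ M i0 * (DD M d).card) :
    n + m ≤ (DD M d).card := by
  have h1 : (n + m) * M i0 ≤ M i0 * (DD M d).card := by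
    refine le_trans ?_ hbig
    have h2 : 1 ≤ (n + m - 1) ^ 2 := Nat.one_le_pow _ _ (by omega)
    calc (n + m) * M i0 = (n + m) * 1 * M i0 := by ring
      _ ≤ (n + m) * (n + m - 1) ^ 2 * (M i0 + d i0) :=
        Nat.mul_le_mul (Nat.mul_le_mul_left _ h2) (Nat.le_add_right _ _)
  rw [mul_comm] at h1
  exact Nat.le_of_mul_le_mul_left h1 hi0

/-- The classification. -/
theorem classif {k : ℕ} {M d : Fin k → ℕ} {m n N r : ℕ} (hm : ∑ i, M i = m)
    (hN : ∏ i, (M i + d i).choose (M i) = N) (h2 : 2 ≤ m) (hn : 2 ≤ n) (hr : 1 ≤ r)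
    (hd : ∀ i, 2 ≤ d i)
    (hA : m + 1 ≤ n →
      (∀ i, (m + 1) * (2 * N + (2 * m + 1) * (3 * m - 2)) * (M i + d i) ≤
        2 * (2 * m + 1) * (N * d i)) ∧ (2 * m + 1) * (m * (m + 2)) ≤ N)
    (hB : n ≤ m → (∀ i, (m + 1) * M i ≤ (n - 1) * (d i - 2)) ∧
      ∃ i, (n + m) * (n + m - 1) ^ 2 * (M i + d i) ≤ M i * N) :
    secDim (nn n M) (dd d) r =
      ((if N < r + m ∧ r < N ∧ r < n then r * (n + N - r)
        else min (r * (n + m)) (n * N) : ℕ) : WithBot ℕ∞) ∧
    (Defective (nn n M) (dd d) r ↔ N < r + m ∧ r < N ∧ r < n) := by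
  classical
  have hNc : (DD M d).card = N := by rw [card_DD, hN]
  have key : secDim (nn n M) (dd d) r =
      ((if N < r + m ∧ r < N ∧ r < n then r * (n + N - r)
        else min (r * (n + m)) (n * N) : ℕ) : WithBot ℕ∞) := by
    rcases le_or_gt (m + 1) n with h | h
    · have h1 := dim_large hm h2 h (r := r) (by
        rw [hNc]
        exact ⟨hd, hA h⟩)
      rw [hNc] at h1
      rw [h1]
      congr 1
      by_cases h3 : N < r + m ∧ r < N ∧ r < n
      · rw [if_pos h3, if_pos h3]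
        congr 1
        rw [Nat.add_sub_assoc h3.2.1.le]
      · rw [if_neg h3, if_neg h3]
    · have hnm : n ≤ m := by omega
      obtain ⟨h3, i0, h4⟩ := hB hnm
      have hi0 : 1 ≤ M i0 := by
        by_contra hcon
        have h5 : M i0 = 0 := by omega
        rw [h5, zero_mul, zero_add, Nat.le_zero] at h4
        have h6 : 0 < (n + m) * (n + m - 1) ^ 2 * d i0 :=
          Nat.mul_pos (Nat.mul_pos (by omega) (pow_pos (by omega) 2)) (by
            have := hd i0
            omega)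
        omega
      have h5 := dim_small hm hn hnm h3 i0 hi0 (by rw [hNc]; exact h4) r
      have h6 := big_small (m := m) hn i0 hi0 (by rw [hNc]; exact h4)
      rw [hNc] at h5 h6
      rw [h5, if_neg (by omega)]
  refine ⟨key, ?_⟩
  rw [Defective, key, card_IdxG, hNc, svDim_G M (by omega) (fun i => by
    have := hd i
    omega), hm]
  rw [Nat.cast_lt]
  by_cases h3 : N < r + m ∧ r < N ∧ r < n
  · rw [if_pos h3]
    refine ⟨fun _ => h3, fun _ => lt_min ?_ ?_⟩
    · exact Nat.mul_lt_mul_of_pos_left (by omega) (by omega)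
    · obtain ⟨a, ha⟩ := Nat.exists_eq_add_of_lt h3.2.2
      obtain ⟨b, hb⟩ := Nat.exists_eq_add_of_lt h3.2.1
      have e1 : n + N - r = r + a + 1 + b + 1 := by omega
      rw [e1, ha, hb]
      have e2 : (r + a + 1) * (r + b + 1) = r * (r + a + 1 + b + 1) + (a + 1) * (b + 1) := by
        ring
      rw [e2]
      have e3 : 0 < (a + 1) * (b + 1) := Nat.mul_pos (Nat.succ_pos _) (Nat.succ_pos _)
      omega
  · rw [if_neg h3]
    exact ⟨fun h => absurd h (lt_irrefl _), fun h => absurd h h3⟩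

end Pool.Agent.SV.G
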