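import Pool.Agent.Lib.MP_b54217_ag.I.Final

/-! # PROJECT G: all degrees at least `8 m ^ 3` -/

set_option autoImplicit false

namespace Pool.Agent.SV.G

theorem choose_ge (a b : ℕ) (hb : 1 ≤ b) : a + 1 ≤ (a + b).choose b := by
  obtain ⟨c, rfl⟩ : ∃ c, b = c + 1 := ⟨b - 1, by omega⟩
  induction a with
  | zero => simp
  | succ a ih =>
    have h1 : a + 1 + (c + 1) = (a + (c + 1)) + 1 := by omega
    rw [h1, Nat.choose_succ_succ']
    have h2 : 1 ≤ (a + (c + 1)).choose c := Nat.choose_pos (by omega)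
    omega

section

variable {k : ℕ} {M d : Fin k → ℕ} {m N : ℕ}

theorem prod_ge (s : Finset (Fin k)) {i : Fin k} (hi : i ∈ s) (h : 1 ≤ M i) :
    d i + 1 ≤ ∏ i ∈ s, (M i + d i).choose (M i) := by
  classical
  rw [← Finset.mul_prod_erase s _ hi]
  have h1 := choose_ge (d i) (M i) h
  rw [add_comm (d i) (M i)] at h1
  have h2 : 1 ≤ ∏ i ∈ s.erase i, (M i + d i).choose (M i) :=
    Finset.prod_pos fun j _ => Nat.choose_pos (by omega)
  calc d i + 1 ≤ (M i + d i).choose (M i) * 1 := by omega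
    _ ≤ _ := Nat.mul_le_mul_left _ h2

theorem mul_choose_pred (a b : ℕ) (hb : 1 ≤ b) :
    b * (b + a).choose b = (b + a) * (a + (b - 1)).choose (b - 1) := by
  obtain ⟨c, rfl⟩ : ∃ c, b = c + 1 := ⟨b - 1, by omega⟩
  have h1 := Nat.add_one_mul_choose_eq (a + c) c
  have h2 : c + 1 + a = a + c + 1 := by omega
  rw [h2, Nat.add_sub_cancel, h1, mul_comm]

/-- Some `M_i N / (M_i + d_i)` is large. -/
theorem exists_big {c : ℕ} (hm : ∑ i, M i = m) (hN : ∏ i, (M i + d i).choose (M i) = N)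
    (h2 : 2 ≤ m) (hd : ∀ i, c ≤ d i) : ∃ i, 1 ≤ M i ∧ c * (M i + d i) ≤ M i * N := by
  classical
  obtain ⟨i, -, hi⟩ : ∃ i ∈ Finset.univ, M i ≠ 0 := by
    by_contra hcon
    push Not at hcon
    rw [Finset.sum_eq_zero hcon] at hm
    omega
  have hi1 : 1 ≤ M i := by omega
  refine ⟨i, hi1, ?_⟩
  rw [← hN, ← Finset.mul_prod_erase Finset.univ _ (Finset.mem_univ i), ← mul_assoc,
    mul_choose_pred _ _ hi1, mul_assoc, mul_comm c]
  apply Nat.mul_le_mul_left
  by_cases h3 : 2 ≤ M i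
  · have h4 := choose_ge (d i) (M i - 1) (by omega)
    have h5 : 1 ≤ ∏ i ∈ Finset.univ.erase i, (M i + d i).choose (M i) :=
      Finset.prod_pos fun j _ => Nat.choose_pos (by omega)
    have h6 := hd i
    calc c ≤ (d i + (M i - 1)).choose (M i - 1) * 1 := by omega
      _ ≤ _ := Nat.mul_le_mul_left _ h5
  · have h4 : M i = 1 := by omega
    obtain ⟨j, hj, hj1⟩ : ∃ j ∈ Finset.univ.erase i, M j ≠ 0 := by
      by_contra hcon
      push Not at hcon
      rw [← Finset.add_sum_erase Finset.univ _ (Finset.mem_univ i),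
        Finset.sum_eq_zero hcon] at hm
      omega
    have h5 := prod_ge (d := d) _ hj (by omega : 1 ≤ M j)
    have h6 := hd j
    have h7 : 1 ≤ (d i + (M i - 1)).choose (M i - 1) := Nat.choose_pos (by omega)
    calc c ≤ 1 * ∏ i ∈ Finset.univ.erase i, (M i + d i).choose (M i) := by omega
      _ ≤ _ := Nat.mul_le_mul_right _ h7

theorem num_sq (m : ℕ) (h2 : 2 ≤ m) : m * m ≥ 2 * m := Nat.mul_le_mul_right m h2

theorem num_cub (m : ℕ) (h2 : 2 ≤ m) : 2 * (m * m) ≤ m ^ 3 := by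
  calc 2 * (m * m) ≤ m * (m * m) := Nat.mul_le_mul_right _ h2
    _ = m ^ 3 := by ring

/-- The hypothesis for `n ≥ m + 1`. -/
theorem large_A (hm : ∑ i, M i = m) (hN : ∏ i, (M i + d i).choose (M i) = N)
    (h2 : 2 ≤ m) (hd : ∀ i, 8 * m ^ 3 ≤ d i) :
    (∀ i, (m + 1) * (2 * N + (2 * m + 1) * (3 * m - 2)) * (M i + d i) ≤
        2 * (2 * m + 1) * (N * d i)) ∧ (2 * m + 1) * (m * (m + 2)) ≤ N := by
  have hsq := num_sq m h2
  have hcu := num_cub m h2
  have hNb : 8 * m ^ 3 + 1 ≤ N := by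
    obtain ⟨i, hi, -⟩ := exists_big hm hN h2 hd
    have h3 := prod_ge (d := d) Finset.univ (Finset.mem_univ i) hi
    rw [hN] at h3
    have := hd i
    omega
  have h5 : (2 * m + 1) * (m * (m + 2)) = 2 * m ^ 3 + 5 * (m * m) + 2 * m := by ring
  refine ⟨fun i => ?_, by omega⟩
  have hMi : M i ≤ m := by
    rw [← hm]
    exact Finset.single_le_sum (f := M) (fun _ _ => Nat.zero_le _) (Finset.mem_univ i)
  have hdi := hd i
  have h6 : (m + 1) * (2 * N + (2 * m + 1) * (3 * m - 2)) * (M i + d i) ≤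
      (m + 1) * (2 * N + (2 * m + 1) * (3 * m)) * (m + d i) :=
    Nat.mul_le_mul (Nat.mul_le_mul_left _ (Nat.add_le_add_left (Nat.mul_le_mul_left _
      (Nat.sub_le _ _)) _)) (Nat.add_le_add_right hMi _)
  refine h6.trans ?_
  -- `(m + 1) (2m + 1) 3m ≤ m N`
  have h7 : (m + 1) * ((2 * m + 1) * (3 * m)) ≤ m * N := by
    have e1 : (m + 1) * ((2 * m + 1) * (3 * m)) = m * (6 * (m * m) + 9 * m + 3) := by ring
    rw [e1]
    apply Nat.mul_le_mul_left
    omega
  -- `2 (m + 1) (m + d) + m (m + d) ≤ 2 (2 m + 1) d`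
  have h8 : 2 * (m + 1) * (m + d i) + m * (m + d i) ≤ 2 * (2 * m + 1) * d i := by
    have e1 : 2 * (m + 1) * (m + d i) + m * (m + d i) =
        3 * (m * m) + 2 * m + 3 * (m * d i) + 2 * d i := by ring
    have e2 : 2 * (2 * m + 1) * d i = 4 * (m * d i) + 2 * d i := by ring
    have e3 : 3 * (m * m) + 2 * m ≤ m * d i := by
      calc 3 * (m * m) + 2 * m = m * (3 * m + 2) := by ring
        _ ≤ m * d i := Nat.mul_le_mul_left _ (by omega)
    rw [e1, e2]
    omega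
  calc (m + 1) * (2 * N + (2 * m + 1) * (3 * m)) * (m + d i)
      = N * (2 * (m + 1) * (m + d i)) + (m + 1) * ((2 * m + 1) * (3 * m)) * (m + d i) := by ring
    _ ≤ N * (2 * (m + 1) * (m + d i)) + m * N * (m + d i) :=
        Nat.add_le_add_left (Nat.mul_le_mul_right _ h7) _
    _ = N * (2 * (m + 1) * (m + d i) + m * (m + d i)) := by ring
    _ ≤ N * (2 * (2 * m + 1) * d i) := Nat.mul_le_mul_left _ h8
    _ = 2 * (2 * m + 1) * (N * d i) := by ring

/-- The hypothesis for `n ≤ m`. -/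
theorem large_B {n : ℕ} (hm : ∑ i, M i = m) (hN : ∏ i, (M i + d i).choose (M i) = N)
    (h2 : 2 ≤ m) (hn : 2 ≤ n) (hd : ∀ i, 8 * m ^ 3 ≤ d i) (hnm : n ≤ m) :
    (∀ i, (m + 1) * M i ≤ (n - 1) * (d i - 2)) ∧
      ∃ i, (n + m) * (n + m - 1) ^ 2 * (M i + d i) ≤ M i * N := by
  have hsq := num_sq m h2
  have hcu := num_cub m h2
  refine ⟨fun i => ?_, ?_⟩
  · have hMi : M i ≤ m := by
      rw [← hm]
      exact Finset.single_le_sum (f := M) (fun _ _ => Nat.zero_le _) (Finset.mem_univ i)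
    have hdi := hd i
    calc (m + 1) * M i ≤ (m + 1) * m := Nat.mul_le_mul_left _ hMi
      _ = m * m + m := by ring
      _ ≤ 1 * (d i - 2) := by omega
      _ ≤ (n - 1) * (d i - 2) := Nat.mul_le_mul_right _ (by omega)
  · obtain ⟨i, -, hi⟩ := exists_big hm hN h2 hd
    refine ⟨i, le_trans (Nat.mul_le_mul_right _ ?_) hi⟩
    calc (n + m) * (n + m - 1) ^ 2 ≤ (2 * m) * (2 * m) ^ 2 :=
          Nat.mul_le_mul (by omega) (Nat.pow_le_pow_left (by omega) 2)
      _ = 8 * m ^ 3 := by ring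

end

end Pool.Agent.SV.G
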